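import Pool.Agent.Helper21.FC.A2
import Pool.Agent.Helper18.Katz9

/-!
MP_0aa406_nt, project FE (plan of helper50): digits of numbers given by small integers in windows.

The entry `x` of a window of length `D` is read with the borrow `e`; `nx x e` is the next borrow,
`om p D x e` the digit sum of the window, `OM`, `fn`, `vl` are the total digit sum, the last borrow and
the value of a list of entries.
-/

set_option autoImplicit false

namespace Pool.Agent.Helper18.FE

open Finset Pool.Agent.Helper21.FC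

/-- the integer `0` or `1` -/
def bt (e : Bool) : ℤ := if e then 1 else 0

/-- digit sum -/
def ds (p : ℕ) (y : ℤ) : ℤ := ((Nat.digits p y.toNat).sum : ℕ)

/-- the next borrow -/
def nx (x : ℤ) (e : Bool) : Bool := decide (x - bt e < 0)

/-- digit sum of a window -/
def om (p D : ℕ) (x : ℤ) (e : Bool) : ℤ := ds p ((x - bt e) % (p : ℤ) ^ D)

/-- digit sum of a list of windows -/
def OM (p D : ℕ) : List ℤ → Bool → ℤ
  | [], _ => 0
  | x :: xs, e => om p D x e + OM p D xs (nx x e)

/-- the last borrow -/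
def fn : List ℤ → Bool → Bool
  | [], e => e
  | x :: xs, e => fn xs (nx x e)

/-- the value of a list of entries -/
def vl (p D : ℕ) : List ℤ → ℤ
  | [] => 0
  | x :: xs => x + (p : ℤ) ^ D * vl p D xs

/-- all entries are small -/
def Sm (p D : ℕ) (L : List ℤ) : Prop := ∀ x ∈ L, |x| < (p : ℤ) ^ D

theorem bt_nonneg (e : Bool) : 0 ≤ bt e := by unfold bt; split <;> norm_num

theorem bt_le (e : Bool) : bt e ≤ 1 := by unfold bt; split <;> norm_num

theorem Sm.tail {p D : ℕ} {x : ℤ} {L : List ℤ} (h : Sm p D (x :: L)) : Sm p D L :=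
  fun y hy => h y (List.mem_cons_of_mem _ hy)

theorem Sm.head {p D : ℕ} {x : ℤ} {L : List ℤ} (h : Sm p D (x :: L)) : |x| < (p : ℤ) ^ D :=
  h x List.mem_cons_self

theorem split_one {P x : ℤ} (hx : |x| < P) (e : Bool) :
    x - bt e = (x - bt e) % P - P * bt (nx x e) := by
  have h0 : 0 < P := lt_of_le_of_lt (abs_nonneg _) hx
  have hb1 := bt_nonneg e
  have hb2 := bt_le e
  obtain ⟨h1, h2⟩ := abs_lt.1 hx
  by_cases h : x - bt e < 0
  · have h3 : nx x e = true := decide_eq_true h
    rw [h3]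
    have h4 : (x - bt e) % P = x - bt e + P := by
      rw [← Int.add_emod_right]
      exact Int.emod_eq_of_lt (by linarith) (by linarith)
    rw [h4]
    unfold bt
    simp
  · have h3 : nx x e = false := decide_eq_false h
    rw [h3, Int.emod_eq_of_lt (by linarith) (by linarith)]
    unfold bt
    simp

/-- value minus borrow -/
theorem vl_cons {p D : ℕ} {x : ℤ} {L : List ℤ} (h : |x| < (p : ℤ) ^ D) (e : Bool) :
    vl p D (x :: L) - bt e =
      (x - bt e) % (p : ℤ) ^ D + (p : ℤ) ^ D * (vl p D L - bt (nx x e)) := by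
  have h1 := split_one h e
  show x + (p : ℤ) ^ D * vl p D L - bt e = _
  linear_combination h1

theorem fn_eq {p D : ℕ} (hp : 2 ≤ p) : ∀ (L : List ℤ) (_ : Sm p D L) (e : Bool),
    fn L e = decide (vl p D L - bt e < 0)
  | [], _, e => by
    show e = decide ((0 : ℤ) - bt e < 0)
    cases e <;> simp [bt]
  | x :: L, h, e => by
    have hP : (0 : ℤ) < (p : ℤ) ^ D := by positivity
    show fn L (nx x e) = _
    rw [fn_eq hp L h.tail, vl_cons h.head]
    have h1 := Int.emod_nonneg (x - bt e) hP.ne'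
    have h2 := Int.emod_lt_of_pos (x - bt e) hP
    set y := vl p D L - bt (nx x e)
    congr 1
    apply propext
    constructor
    · intro h3
      nlinarith
    · intro h3
      by_contra h4
      push Not at h4
      have := mul_nonneg hP.le h4
      linarith

theorem vl_bound {p D : ℕ} (hp : 2 ≤ p) : ∀ (L : List ℤ) (_ : Sm p D L),
    |vl p D L| < (p : ℤ) ^ (D * L.length)
  | [], _ => by simp [vl]
  | x :: L, h => by
    have hP : (0 : ℤ) < (p : ℤ) ^ D := by positivity
    have h1 := h.head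
    have h2 := vl_bound hp L h.tail
    show |x + (p : ℤ) ^ D * vl p D L| < _
    have h3 : (p : ℤ) ^ (D * (x :: L).length) = (p : ℤ) ^ D * (p : ℤ) ^ (D * L.length) := by
      rw [List.length_cons, Nat.mul_succ, add_comm, pow_add]
    rw [h3]
    have h4 : |x + (p : ℤ) ^ D * vl p D L| ≤ |x| + (p : ℤ) ^ D * |vl p D L| := by
      refine (abs_add_le _ _).trans ?_
      rw [abs_mul, abs_of_pos hP]
    nlinarith

theorem ds_add {p : ℕ} (hp : 2 ≤ p) (k : ℕ) {a y : ℤ} (ha : 0 ≤ a) (ha' : a < (p : ℤ) ^ k)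
    (hy : 0 ≤ y) : ds p (a + (p : ℤ) ^ k * y) = ds p a + ds p y := by
  obtain ⟨a', rfl⟩ := Int.eq_ofNat_of_zero_le ha
  obtain ⟨y', rfl⟩ := Int.eq_ofNat_of_zero_le hy
  unfold ds
  have h1 : ((a' : ℤ) + (p : ℤ) ^ k * (y' : ℤ)).toNat = a' + p ^ k * y' := by
    have : ((a' : ℤ) + (p : ℤ) ^ k * (y' : ℤ)) = ((a' + p ^ k * y' : ℕ) : ℤ) := by push_cast; ring
    rw [this, Int.toNat_natCast]
  rw [h1, Int.toNat_natCast, Int.toNat_natCast,
    Helper18.Katz.ds_add hp k a' y' (by exact_mod_cast ha')]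
  push_cast
  rfl

theorem ds_zero (p : ℕ) : ds p 0 = 0 := by simp [ds]

theorem ds_digit {p : ℕ} {x : ℕ} (hx : x < p) : ds p (x : ℤ) = x := by
  unfold ds
  rw [Int.toNat_natCast]
  rcases Nat.eq_zero_or_pos x with rfl | h
  · simp
  · rw [Nat.digits_of_lt p x h.ne' hx]
    simp

theorem ds_full {p : ℕ} (hp : 2 ≤ p) (M : ℕ) :
    ds p ((p : ℤ) ^ M - 1) = ((p : ℤ) - 1) * M := by
  induction M with
  | zero => simp [ds_zero]
  | succ M ih =>
    have hP : (1 : ℤ) ≤ (p : ℤ) ^ M := one_le_pow₀ (by exact_mod_cast (by omega : 1 ≤ p))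
    have h1 : (p : ℤ) ^ (M + 1) - 1 = ((p : ℤ) ^ M - 1) + (p : ℤ) ^ M * (((p - 1 : ℕ) : ℕ) : ℤ) := by
      rw [Nat.cast_sub (by omega : 1 ≤ p)]
      push_cast
      ring
    rw [h1, ds_add hp M (by linarith) (by linarith) (by positivity), ih,
      ds_digit (by omega), Nat.cast_sub (by omega : 1 ≤ p)]
    push_cast
    ring

theorem emod_split {P a b : ℤ} {M D : ℕ} {p : ℕ} (hP : P = (p : ℤ) ^ D) (hp : 2 ≤ p) (hD : D ≤ M)
    (ha : 0 ≤ a) (ha' : a < P) :
    (a + P * b) % (p : ℤ) ^ M = a + P * (b % (p : ℤ) ^ (M - D)) := by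
  have hpos : (0 : ℤ) < (p : ℤ) ^ (M - D) := by positivity
  have h1 : (p : ℤ) ^ M = P * (p : ℤ) ^ (M - D) := by
    rw [hP, ← pow_add]
    congr 1
    omega
  have h2 := Int.emod_add_mul_ediv b ((p : ℤ) ^ (M - D))
  have h3 : a + P * b = (a + P * (b % (p : ℤ) ^ (M - D))) + (p : ℤ) ^ M * (b / (p : ℤ) ^ (M - D)) := by
    rw [h1]
    linear_combination (-P) * h2
  rw [h3, Int.add_mul_emod_self_left]
  have h4 := Int.emod_nonneg b hpos.ne'
  have h5 := Int.emod_lt_of_pos b hpos
  refine Int.emod_eq_of_lt (by have : 0 < P := by rw [hP]; positivity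
                               positivity) ?_
  rw [h1]
  nlinarith

theorem ds_list {p D : ℕ} (hp : 2 ≤ p) : ∀ (L : List ℤ) (_ : Sm p D L) (e : Bool) (M : ℕ),
    D * L.length ≤ M → ds p ((vl p D L - bt e) % (p : ℤ) ^ M) =
      OM p D L e + ((p : ℤ) - 1) * ((M : ℤ) - D * L.length) * bt (fn L e)
  | [], _, e, M, _ => by
    have hM : (0 : ℤ) < (p : ℤ) ^ M := by positivity
    show ds p ((0 - bt e) % (p : ℤ) ^ M) = 0 + ((p : ℤ) - 1) * ((M : ℤ) - D * (0 : ℕ)) * bt e
    cases e
    · simp [bt, ds_zero]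
    · have h1 : (0 - bt true) % (p : ℤ) ^ M = (p : ℤ) ^ M - 1 := by
        rw [← Int.add_emod_right]
        unfold bt
        rw [if_pos rfl, Int.emod_eq_of_lt (by linarith) (by linarith)]
        ring
      rw [h1, ds_full hp]
      simp [bt]
  | x :: L, h, e, M, hM => by
    have hP : (0 : ℤ) < (p : ℤ) ^ D := by positivity
    have h1 := Int.emod_nonneg (x - bt e) hP.ne'
    have h2 := Int.emod_lt_of_pos (x - bt e) hP
    rw [List.length_cons, Nat.mul_succ] at hM
    have h3 := ds_list hp L h.tail (nx x e) (M - D) (by omega)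
    rw [vl_cons h.head, emod_split rfl hp (by omega) h1 h2, ds_add hp D h1 h2
      (Int.emod_nonneg _ (by positivity)), h3, Nat.cast_sub (by omega : D ≤ M)]
    show om p D x e + _ = om p D x e + OM p D L (nx x e) + _ * bt (fn L (nx x e))
    rw [List.length_cons]
    push_cast
    ring

end Pool.Agent.Helper18.FE
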