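import Pool.Agent.Helper18.FE.B1
import Pool.Agent.Helper21.FC.A1

/-!
MP_0aa406_nt, project FE (plan of helper50): the weight of `∑_c Q ^ c vl (L c)`, `Q = p ^ m`.
-/

set_option autoImplicit false

namespace Pool.Agent.Helper18.FE

open Finset Pool.Agent.Helper21.FC

/-- value at `Q` of a vector -/
def eq (Q : ℤ) {l : ℕ} [NeZero l] (v : ZMod l → ℤ) : ℤ := ∑ c : ZMod l, v c * Q ^ c.val

theorem pow_mod_val (Q : ℤ) (l x : ℕ) : Q ^ l - 1 ∣ Q ^ x - Q ^ (x % l) := by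
  have h1 : Q ^ x = (Q ^ l) ^ (x / l) * Q ^ (x % l) := by
    rw [← pow_mul, ← pow_add, Nat.div_add_mod]
  rw [h1, show (Q ^ l) ^ (x / l) * Q ^ (x % l) - Q ^ (x % l) =
    ((Q ^ l) ^ (x / l) - 1) * Q ^ (x % l) by ring]
  exact (sub_one_dvd_pow_sub_one _ _).mul_right _

theorem val_add_dvd (Q : ℤ) {l : ℕ} [NeZero l] (a b : ZMod l) :
    Q ^ l - 1 ∣ Q ^ a.val * Q ^ b.val - Q ^ (a + b).val := by
  rw [← pow_add, ZMod.val_add]
  exact pow_mod_val Q l _

/-- multiplication by `Q` shifts -/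
theorem eq_shift (Q : ℤ) {l : ℕ} [NeZero l] (v : ZMod l → ℤ) :
    Q ^ l - 1 ∣ Q * eq Q v - eq Q (fun c => v (c - 1)) := by
  have h1 : eq Q (fun c => v (c - 1)) = ∑ c : ZMod l, v c * Q ^ (c + 1).val := by
    unfold eq
    exact (Fintype.sum_equiv (Equiv.addRight (1 : ZMod l)) _ _ (fun c => by simp)).symm
  rw [h1]
  unfold eq
  rw [Finset.mul_sum, ← Finset.sum_sub_distrib]
  refine Finset.dvd_sum fun c _ => ?_
  have h2 : Q ^ l - 1 ∣ Q ^ (c.val + 1) - Q ^ (c + 1).val := by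
    have h3 := pow_mod_val Q l (c.val + 1)
    have h4 : (c.val + 1) % l = (c + 1).val := by
      rw [ZMod.val_add, ZMod.val_one_eq_one_mod]
      simp [Nat.add_mod]
    rwa [h4] at h3
  rw [show Q * (v c * Q ^ c.val) - v c * Q ^ (c + 1).val = v c * (Q ^ (c.val + 1) - Q ^ (c + 1).val)
    by ring]
  exact h2.mul_left _

/-- cyclic convolution -/
def cv {l : ℕ} [NeZero l] (μ v : ZMod l → ℤ) (c : ZMod l) : ℤ := ∑ b : ZMod l, μ (c - b) * v b

theorem eq_cv (Q : ℤ) {l : ℕ} [NeZero l] (μ v : ZMod l → ℤ) :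
    Q ^ l - 1 ∣ eq Q μ * eq Q v - eq Q (cv μ v) := by
  have h1 : eq Q (cv μ v) = ∑ a : ZMod l, ∑ b : ZMod l, μ a * v b * Q ^ (a + b).val := by
    unfold eq cv
    simp only [Finset.sum_mul]
    rw [Finset.sum_comm]
    rw [Finset.sum_comm (s := univ) (t := univ) (f := fun a b => μ a * v b * Q ^ (a + b).val)]
    refine Finset.sum_congr rfl fun b _ => ?_
    refine (Fintype.sum_equiv (Equiv.addRight b) _ _ fun a => ?_).symm
    simp
  have h2 : eq Q μ * eq Q v = ∑ a : ZMod l, ∑ b : ZMod l, μ a * v b * (Q ^ a.val * Q ^ b.val) := by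
    unfold eq
    rw [Finset.sum_mul_sum]
    exact Finset.sum_congr rfl fun a _ => Finset.sum_congr rfl fun b _ => by ring
  rw [h1, h2, ← Finset.sum_sub_distrib]
  refine Finset.dvd_sum fun a _ => ?_
  rw [← Finset.sum_sub_distrib]
  refine Finset.dvd_sum fun b _ => ?_
  rw [← mul_sub]
  exact (val_add_dvd Q a b).mul_left _

/-- block digits -/
theorem ds_blocks {p : ℕ} (hp : 2 ≤ p) (m : ℕ) (y : ℕ → ℤ) (hy : ∀ i, 0 ≤ y i)
    (hy' : ∀ i, y i < (p : ℤ) ^ m) (l : ℕ) :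
    0 ≤ ∑ i ∈ range l, y i * ((p : ℤ) ^ m) ^ i ∧
    ∑ i ∈ range l, y i * ((p : ℤ) ^ m) ^ i < ((p : ℤ) ^ m) ^ l ∧
    ds p (∑ i ∈ range l, y i * ((p : ℤ) ^ m) ^ i) = ∑ i ∈ range l, ds p (y i) := by
  have hQ : (0 : ℤ) < (p : ℤ) ^ m := by positivity
  induction l with
  | zero => simp [ds_zero]
  | succ l ih =>
    obtain ⟨h1, h2, h3⟩ := ih
    have hQl : (0 : ℤ) < ((p : ℤ) ^ m) ^ l := by positivity
    rw [Finset.sum_range_succ, Finset.sum_range_succ]
    refine ⟨add_nonneg h1 (mul_nonneg (hy l) hQl.le), ?_, ?_⟩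
    · have h4 : y l + 1 ≤ (p : ℤ) ^ m := hy' l
      rw [pow_succ]
      nlinarith
    · rw [← h3]
      have h5 := ds_add hp (m * l) (a := ∑ i ∈ range l, y i * ((p : ℤ) ^ m) ^ i) (y := y l) h1
        (by rwa [pow_mul]) (hy l)
      rw [pow_mul] at h5
      rw [mul_comm (y l)]
      exact h5

theorem sum_val {l : ℕ} [NeZero l] (f : ZMod l → ℤ) (g : ℕ → ℤ) :
    ∑ c : ZMod l, f c * g c.val = ∑ i ∈ range l, f ((i : ℕ) : ZMod l) * g i := by
  have h := Helper18.Katz.sum_zmod_val (n := l) (fun j => f ((j : ℕ) : ZMod l) * g j)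
  rw [← h]
  refine Finset.sum_congr rfl fun c _ => ?_
  rw [ZMod.natCast_zmod_val]

/-- the weight of a number given by lists of entries -/
theorem W_lists {p : ℕ} (hp : 2 ≤ p) {l : ℕ} [NeZero l] (m D R : ℕ) (hm : 1 ≤ m)
    (L : ZMod l → List ℤ) (hL : ∀ c, Sm p D (L c)) (hlen : ∀ c, (L c).length = R) (hR : D * R ≤ m)
    (s : ZMod l → Bool) (hs : ∀ c, s c = fn (L (c - 1)) (s (c - 1)))
    (hnd : ¬ NN p (m * l) ∣ eq ((p : ℤ) ^ m) (fun c => vl p D (L c))) :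
    ((p : ℝ) - 1) * W p (m * l) (eq ((p : ℤ) ^ m) (fun c => vl p D (L c))) =
      ((∑ c : ZMod l, (OM p D (L c) (s c) +
        ((p : ℤ) - 1) * ((m : ℤ) - D * R) * bt (fn (L c) (s c))) : ℤ) : ℝ) := by
  have hl : 0 < l := NeZero.pos l
  have hn : 1 ≤ m * l := Nat.mul_pos hm hl
  obtain ⟨Q, hQ⟩ : ∃ Q : ℤ, Q = (p : ℤ) ^ m := ⟨_, rfl⟩
  have hQ0 : 0 < Q := by rw [hQ]; positivity
  -- block residues
  obtain ⟨y, hy⟩ : ∃ y : ZMod l → ℤ, ∀ c, y c = (vl p D (L c) - bt (s c)) % Q := ⟨_, fun _ => rfl⟩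
  have hy0 : ∀ c, 0 ≤ y c := fun c => by rw [hy]; exact Int.emod_nonneg _ hQ0.ne'
  have hy1 : ∀ c, y c < Q := fun c => by rw [hy]; exact Int.emod_lt_of_pos _ hQ0
  have hsplit : ∀ c, vl p D (L c) = y c + bt (s c) - Q * bt (fn (L c) (s c)) := by
    intro c
    have h1 := vl_bound hp (L c) (hL c)
    rw [hlen c] at h1
    have h2 : (p : ℤ) ^ (D * R) ≤ Q := by
      rw [hQ]
      exact pow_le_pow_right₀ (by exact_mod_cast (by omega : 1 ≤ p)) hR
    have h3 := split_one (lt_of_lt_of_le h1 h2) (s c)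
    have h4 : nx (vl p D (L c)) (s c) = fn (L c) (s c) := (fn_eq hp (L c) (hL c) (s c)).symm
    rw [h4, ← hy] at h3
    linarith
  have hdsy : ∀ c, ds p (y c) = OM p D (L c) (s c) +
      ((p : ℤ) - 1) * ((m : ℤ) - D * R) * bt (fn (L c) (s c)) := by
    intro c
    have h1 := ds_list hp (L c) (hL c) (s c) m (by rw [hlen c]; exact hR)
    rw [hlen c, ← hQ, ← hy] at h1
    exact h1
  -- congruence
  have hpow : (p : ℤ) ^ (m * l) = Q ^ l := by rw [hQ, pow_mul]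
  have hNN : NN p (m * l) = Q ^ l - 1 := by unfold NN; rw [hpow]
  have hcong : NN p (m * l) ∣ eq Q (fun c => vl p D (L c)) - eq Q y := by
    have h1 := eq_shift Q (fun c => bt (fn (L c) (s c)))
    have h2 : (fun c => bt (fn (L (c - 1)) (s (c - 1)))) = fun c => bt (s c) :=
      funext fun c => by rw [← hs c]
    rw [h2] at h1
    rw [hNN]
    have h3 : eq Q (fun c => vl p D (L c)) - eq Q y =
        -(Q * eq Q (fun c => bt (fn (L c) (s c))) - eq Q (fun c => bt (s c))) := by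
      unfold eq
      rw [Finset.mul_sum, ← Finset.sum_sub_distrib, ← Finset.sum_sub_distrib,
        ← Finset.sum_neg_distrib]
      refine Finset.sum_congr rfl fun c _ => ?_
      beta_reduce
      rw [hsplit c]
      ring
    rw [h3]
    exact (dvd_neg).2 h1
  -- the representative
  have hsum : eq Q y = ∑ i ∈ range l, y ((i : ℕ) : ZMod l) * ((p : ℤ) ^ m) ^ i := by
    unfold eq
    rw [hQ]
    exact sum_val y (fun i => ((p : ℤ) ^ m) ^ i)
  obtain ⟨b1, b2, b3⟩ := ds_blocks hp m (fun i => y ((i : ℕ) : ZMod l)) (fun i => hy0 _)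
    (fun i => by rw [← hQ]; exact hy1 _) l
  rw [← hsum] at b1 b2 b3
  rw [← hQ] at b2 hnd ⊢
  have b4 : eq Q y ≠ Q ^ l - 1 := by
    intro h
    apply hnd
    rw [h, ← hNN] at hcong
    have := dvd_add hcong (dvd_refl (NN p (m * l)))
    rwa [sub_add_cancel] at this
  obtain ⟨Y, hY⟩ := Int.eq_ofNat_of_zero_le b1
  have hYlt : Y < p ^ (m * l) - 1 := by
    have h1 : (Y : ℤ) < Q ^ l - 1 := by
      rw [← hY]
      omega
    rw [← hpow] at h1
    have h2 : 1 ≤ p ^ (m * l) := Nat.one_le_pow _ _ (by omega)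
    zify [h2]
    exact h1
  have hW := W_digits hp hn Y hYlt
  rw [W_congr hp hn hcong, hY, ← hW]
  have h5 : ∑ c : ZMod l, ds p (y c) = ∑ i ∈ range l, ds p (y ((i : ℕ) : ZMod l)) := by
    have := sum_val (l := l) (fun c => ds p (y c)) (fun _ => 1)
    simpa using this
  rw [← Finset.sum_congr rfl fun c _ => hdsy c, h5, ← b3, hY]
  unfold ds
  rw [Int.toNat_natCast]
  exact (Int.cast_natCast _).symm

end Pool.Agent.Helper18.FE
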