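import Pool.Agent.Helper18.FE.B2

/-!
MP_0aa406_nt, project FE (plan of helper50): iterating a stage.
-/

set_option autoImplicit false

namespace Pool.Agent.Helper18.FE

open Finset Pool.Agent.Helper21.FC

/-- entries of a functional -/
def ent {l : ℕ} (f : (ZMod l → ℤ) → ℤ) (P : List (ZMod l → ℤ)) : List ℤ := P.map f

/-- shift of a vector -/
def sh {l : ℕ} (j : ZMod l) (v : ZMod l → ℤ) : ZMod l → ℤ := fun c => v (c - j)

/-- the plays of `K` copies of a stage, each shifted by `j` against the one before -/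
def it {l : ℕ} (j : ZMod l) (P : List (ZMod l → ℤ)) : ℕ → List (ZMod l → ℤ)
  | 0 => []
  | K + 1 => P ++ (it j P K).map (sh j)

theorem fn_append : ∀ (A B : List ℤ) (e : Bool), fn (A ++ B) e = fn B (fn A e)
  | [], _, _ => rfl
  | x :: A, B, e => fn_append A B (nx x e)

theorem OM_append (p D : ℕ) : ∀ (A B : List ℤ) (e : Bool),
    OM p D (A ++ B) e = OM p D A e + OM p D B (fn A e)
  | [], _, _ => by simp [OM, fn]
  | x :: A, B, e => by
    show om p D x e + OM p D (A ++ B) (nx x e) = om p D x e + OM p D A (nx x e) + _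
    rw [OM_append p D A B (nx x e)]
    show _ = om p D x e + OM p D A (nx x e) + OM p D B (fn A (nx x e))
    ring

theorem vl_smul (p D : ℕ) (h : ℤ) {l : ℕ} (c : ZMod l) (P : List (ZMod l → ℤ)) :
    vl p D (P.map fun v => h * v c) = h * vl p D (P.map fun v => v c) := by
  induction P with
  | nil => simp [vl]
  | cons v P ih =>
    simp only [List.map_cons, vl]
    rw [ih]
    ring

theorem vl_cv (p D : ℕ) {l : ℕ} [NeZero l] (μ : ZMod l → ℤ) (c : ZMod l)
    (P : List (ZMod l → ℤ)) :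
    vl p D (P.map fun v => cv μ v c) = cv μ (fun b => vl p D (P.map fun v => v b)) c := by
  induction P with
  | nil => simp [vl, cv]
  | cons v P ih =>
    simp only [List.map_cons, vl]
    rw [ih]
    unfold cv
    rw [Finset.mul_sum, ← Finset.sum_add_distrib]
    exact Finset.sum_congr rfl fun b _ => by ring

theorem vl_eq_zero {p D : ℕ} (hp : 2 ≤ p) : ∀ (L : List ℤ) (_ : Sm p D L), vl p D L = 0 →
    ∀ x ∈ L, x = 0
  | [], _, _ => by simp
  | y :: L, h, h0 => by
    have hP : (0 : ℤ) < (p : ℤ) ^ D := by positivity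
    have h1 : y + (p : ℤ) ^ D * vl p D L = 0 := h0
    have h2 : y = 0 := by
      apply Int.eq_zero_of_abs_lt_dvd (m := (p : ℤ) ^ D) _ h.head
      exact ⟨-vl p D L, by linarith⟩
    have h3 : vl p D L = 0 := by
      rw [h2, zero_add] at h1
      exact (mul_eq_zero.1 h1).resolve_left hP.ne'
    intro x hx
    rcases List.mem_cons.1 hx with h4 | h4
    · rw [h4, h2]
    · exact vl_eq_zero hp L h.tail h3 x h4

theorem cv_sh {l : ℕ} [NeZero l] (μ v : ZMod l → ℤ) (j c : ZMod l) :
    cv μ (sh j v) c = cv μ v (c - j) := by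
  unfold cv sh
  refine Fintype.sum_equiv (Equiv.subRight j) _ _ fun b => ?_
  simp only [Equiv.subRight_apply]
  rw [show c - j - (b - j) = c - b by ring]

section iterate

variable {p D : ℕ} {l : ℕ} [NeZero l] {f : ZMod l → (ZMod l → ℤ) → ℤ} {j : ZMod l}
  {P : List (ZMod l → ℤ)} {r : ZMod l → Bool}

theorem ent_it (hf : ∀ c v, f c (sh j v) = f (c - j) v) (K : ℕ) (c : ZMod l) :
    (it j P (K + 1)).map (f c) = P.map (f c) ++ (it j P K).map (f (c - j)) := by
  show (P ++ (it j P K).map (sh j)).map (f c) = _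
  rw [List.map_append, List.map_map]
  congr 2
  funext v
  exact hf c v

theorem fn_it (hf : ∀ c v, f c (sh j v) = f (c - j) v)
    (hr : ∀ c, fn (P.map (f c)) (r c) = r (c - j)) :
    ∀ (K : ℕ) (c : ZMod l), fn ((it j P K).map (f c)) (r c) = r (c - K * j)
  | 0, c => by simp [it, fn]
  | K + 1, c => by
    rw [ent_it hf, fn_append, hr, fn_it hf hr K (c - j)]
    congr 1
    push_cast
    ring

theorem OM_it (hf : ∀ c v, f c (sh j v) = f (c - j) v)
    (hr : ∀ c, fn (P.map (f c)) (r c) = r (c - j)) (K : ℕ) :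
    ∑ c, OM p D ((it j P K).map (f c)) (r c) = K * ∑ c, OM p D (P.map (f c)) (r c) := by
  induction K with
  | zero => simp [it, OM]
  | succ K ih =>
    have h1 : ∀ c, OM p D ((it j P (K + 1)).map (f c)) (r c) = OM p D (P.map (f c)) (r c) +
        OM p D ((it j P K).map (f (c - j))) (r (c - j)) := by
      intro c
      rw [ent_it hf, OM_append, hr]
    rw [Finset.sum_congr rfl fun c _ => h1 c, Finset.sum_add_distrib]
    have h2 : ∑ c, OM p D ((it j P K).map (f (c - j))) (r (c - j)) =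
        ∑ c, OM p D ((it j P K).map (f c)) (r c) :=
      Fintype.sum_equiv (Equiv.subRight j) _ _ fun c => rfl
    rw [h2, ih]
    push_cast
    ring

theorem length_it (K : ℕ) : (it j P K).length = K * P.length := by
  induction K with
  | zero => simp [it]
  | succ K ih =>
    show (P ++ (it j P K).map (sh j)).length = _
    rw [List.length_append, List.length_map, ih]
    ring

theorem Sm_it (hf : ∀ c v, f c (sh j v) = f (c - j) v) (hP : ∀ c, Sm p D (P.map (f c))) :
    ∀ (K : ℕ) (c : ZMod l), Sm p D ((it j P K).map (f c))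
  | 0, c => by intro x hx; simp [it] at hx
  | K + 1, c => by
    intro x hx
    rw [ent_it hf, List.mem_append] at hx
    rcases hx with h | h
    · exact hP c x h
    · exact Sm_it hf hP K (c - j) x h

end iterate

/-- A stage without loss gives the exact gain. -/
theorem gain_of_stage {p : ℕ} (hp : 2 ≤ p) {l : ℕ} [NeZero l] (hl : l.Prime) (m D : ℕ)
    (μ : ZMod l → ℤ) (h : ℤ) (hh : h ≠ 0) (d : ℤ) (x : ℕ)
    (hd : NN p (m * l) ∣ h * d - (p : ℤ) ^ x * eq ((p : ℤ) ^ m) μ)
    (hcop : IsCoprime (NN p (m * l)) d) (P : List (ZMod l → ℤ)) (j : ZMod l) (hj : j ≠ 0)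
    (r : ZMod l → Bool) (κ : ℤ) (hκ : ∑ c, bt (r c) = κ)
    (hrow : ∀ c, fn (P.map fun v => cv μ v c) (r c) = r (c - j))
    (hco : ∀ c, fn (P.map fun v => h * v c) false = false)
    (hsr : ∀ c, Sm p D (P.map fun v => cv μ v c)) (hsc : ∀ c, Sm p D (P.map fun v => h * v c))
    (hne : ∃ v ∈ P, ∃ c, v c ≠ 0) (hm : D * (l * P.length) + 1 ≤ m)
    (hE : ((p : ℤ) - 1) * D * P.length * κ ≤ ∑ c, OM p D (P.map fun v => cv μ v c) (r c) -
      ∑ c, OM p D (P.map fun v => h * v c) false) :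
    Gain p (m * l) d (κ * m) := by
  have : Fact l.Prime := ⟨hl⟩
  have hm1 : 1 ≤ m := by omega
  have hl0 : 0 < l := NeZero.pos l
  have hn : 1 ≤ m * l := Nat.mul_pos hm1 hl0
  -- number of copies
  obtain ⟨K, hK⟩ : ∃ K : ℕ, K = (-j⁻¹ : ZMod l).val := ⟨_, rfl⟩
  have hKj : (K : ZMod l) * j = -1 := by
    rw [hK, ZMod.natCast_zmod_val, neg_mul, inv_mul_cancel₀ hj]
  have hKl : K ≤ l := by rw [hK]; exact (ZMod.val_lt _).le
  have hK0 : K ≠ 0 := by
    intro h0
    rw [h0, Nat.cast_zero, zero_mul] at hKj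
    exact one_ne_zero (neg_eq_zero.1 hKj.symm)
  have hlen : D * (it j P K).length + 1 ≤ m := by
    rw [length_it]
    have := Nat.mul_le_mul_left D (Nat.mul_le_mul_right P.length hKl)
    omega
  obtain ⟨fr, hfr⟩ : ∃ fr : ZMod l → (ZMod l → ℤ) → ℤ, ∀ c v, fr c v = cv μ v c :=
    ⟨_, fun _ _ => rfl⟩
  obtain ⟨fc, hfc⟩ : ∃ fc : ZMod l → (ZMod l → ℤ) → ℤ, ∀ c v, fc c v = h * v c :=
    ⟨_, fun _ _ => rfl⟩
  have hfr' : ∀ c, (fun v => cv μ v c) = fr c := fun c => funext fun v => (hfr c v).symm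
  have hfc' : ∀ c, (fun v => h * v c) = fc c := fun c => funext fun v => (hfc c v).symm
  simp only [hfr', hfc'] at hrow hco hsr hsc hE
  have hfr1 : ∀ c v, fr c (sh j v) = fr (c - j) v := fun c v => by rw [hfr, hfr, cv_sh]
  have hfc1 : ∀ c v, fc c (sh j v) = fc (c - j) v := fun c v => by rw [hfc, hfc]; rfl
  have hco' : ∀ c : ZMod l, fn (P.map (fc c)) ((fun _ => false : ZMod l → Bool) c) =
      (fun _ => false : ZMod l → Bool) (c - j) := hco
  -- final states
  have r1 : ∀ c, fn ((it j P K).map (fr c)) (r c) = r (c + 1) := by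
    intro c
    rw [fn_it hfr1 hrow, hKj]
    congr 1
    ring
  have c1 : ∀ c, fn ((it j P K).map (fc c)) false = false := fun c => fn_it hfc1 hco' K c
  -- sums
  have r2 := OM_it (p := p) (D := D) hfr1 hrow K
  have c2 := OM_it (p := p) (D := D) hfc1 hco' K
  beta_reduce at c2
  -- smallness
  have r3 := Sm_it hfr1 hsr K
  have c3 := Sm_it hfc1 hsc K
  obtain ⟨Q, hQ⟩ : ∃ Q : ℤ, Q = (p : ℤ) ^ m := ⟨_, rfl⟩
  obtain ⟨R, hR⟩ : ∃ R : ℕ, R = (it j P K).length := ⟨_, rfl⟩
  rw [← hR] at hlen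
  have hNN : NN p (m * l) = Q ^ l - 1 := by unfold NN; rw [hQ, pow_mul]
  -- the numbers
  obtain ⟨w, hw⟩ : ∃ w : ZMod l → ℤ, ∀ b, w b = vl p D ((it j P K).map fun v => v b) :=
    ⟨_, fun _ => rfl⟩
  have ha : eq Q (fun c => vl p D ((it j P K).map (fc c))) = h * eq Q w := by
    unfold eq
    rw [Finset.mul_sum]
    refine Finset.sum_congr rfl fun c _ => ?_
    beta_reduce
    rw [← hfc', vl_smul, ← hw]
    ring
  have hb : NN p (m * l) ∣ eq Q μ * eq Q w - eq Q (fun c => vl p D ((it j P K).map (fr c))) := by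
    have h1 := eq_cv Q μ w
    have h2 : (fun c => vl p D ((it j P K).map (fr c))) = cv μ w := by
      funext c
      rw [← hfr', vl_cv]
      congr 1
      funext b
      exact (hw b).symm
    rw [hNN, h2]
    exact h1
  obtain ⟨a, haa⟩ : ∃ a : ℤ, a = eq Q (fun c => vl p D ((it j P K).map (fc c))) := ⟨_, rfl⟩
  obtain ⟨b, hbb⟩ : ∃ b : ℤ, b = eq Q (fun c => vl p D ((it j P K).map (fr c))) := ⟨_, rfl⟩
  rw [← haa] at ha
  rw [← hbb] at hb
  have hdab : NN p (m * l) ∣ d * a - (p : ℤ) ^ x * b := by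
    rw [ha]
    have h1 := hd.mul_right (eq Q w)
    rw [← hQ] at h1
    have h2 := hb.mul_left ((p : ℤ) ^ x)
    have h3 := dvd_add h1 h2
    have h4 : (h * d - (p : ℤ) ^ x * eq Q μ) * eq Q w +
        (p : ℤ) ^ x * (eq Q μ * eq Q w - b) = d * (h * eq Q w) - (p : ℤ) ^ x * b := by ring
    rwa [h4] at h3
  -- nondegenerate
  have hp0 : (0 : ℤ) < (p : ℤ) ^ (D * R) := by positivity
  have hQ2 : 2 * (p : ℤ) ^ (D * R) ≤ Q := by
    have h1 : (p : ℤ) ^ (D * R + 1) ≤ Q := by
      rw [hQ]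
      exact pow_le_pow_right₀ (by exact_mod_cast (by omega : 1 ≤ p)) hlen
    have h2 : (2 : ℤ) ≤ p := by exact_mod_cast hp
    rw [pow_succ] at h1
    nlinarith
  have hA0 : ∀ c, 0 ≤ vl p D ((it j P K).map (fc c)) := by
    intro c
    have h1 := fn_eq hp _ (c3 c) false
    rw [c1 c] at h1
    have h2 := (decide_eq_false_iff_not.1 h1.symm)
    have h3 : bt false = 0 := rfl
    rw [h3, sub_zero] at h2
    exact not_lt.1 h2
  have hA1 : ∀ c, vl p D ((it j P K).map (fc c)) + 1 ≤ Q - 1 := by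
    intro c
    have h1 := vl_bound hp _ (c3 c)
    rw [List.length_map, ← hR] at h1
    have h2 := lt_of_le_of_lt (le_abs_self _) h1
    omega
  have hapos : 0 < a := by
    rw [haa]
    unfold eq
    have hQ0 : 0 < Q := by rw [hQ]; positivity
    obtain ⟨v, hv, c, hc⟩ := hne
    refine Finset.sum_pos' (fun c _ => mul_nonneg (hA0 c) (by positivity)) ⟨c, Finset.mem_univ c, ?_⟩
    refine mul_pos (lt_of_le_of_ne (hA0 c) fun h0 => ?_) (by positivity)
    have h1 := vl_eq_zero hp _ (c3 c) h0.symm (fc c v) (by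
      obtain ⟨K', rfl⟩ : ∃ K', K = K' + 1 := ⟨K - 1, by omega⟩
      rw [ent_it hfc1]
      exact List.mem_append_left _ (List.mem_map_of_mem hv))
    rw [hfc] at h1
    exact (mul_ne_zero hh hc) h1
  have halt : a < NN p (m * l) := by
    have h1 : ∑ c : ZMod l, (vl p D ((it j P K).map (fc c)) + 1) * Q ^ c.val ≤
        ∑ c : ZMod l, (Q - 1) * Q ^ c.val :=
      Finset.sum_le_sum fun c _ => mul_le_mul_of_nonneg_right (hA1 c)
        (by have : 0 < Q := by rw [hQ]; positivity
            positivity)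
    have h2 : ∑ c : ZMod l, (Q - 1) * Q ^ c.val = Q ^ l - 1 := by
      rw [← Finset.mul_sum, Helper18.Katz.sum_zmod_val (fun i => Q ^ i), mul_comm]
      exact geom_sum_mul Q l
    have h3 : ∑ c : ZMod l, (vl p D ((it j P K).map (fc c)) + 1) * Q ^ c.val =
        a + ∑ c : ZMod l, Q ^ c.val := by
      rw [haa]
      unfold eq
      rw [← Finset.sum_add_distrib]
      exact Finset.sum_congr rfl fun c _ => by ring
    have h4 : 0 < ∑ c : ZMod l, Q ^ c.val := by
      have : 0 < Q := by rw [hQ]; positivity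
      exact Finset.sum_pos (fun c _ => by positivity) Finset.univ_nonempty
    rw [hNN]
    linarith
  have hnda : ¬ NN p (m * l) ∣ a := fun h1 => absurd (Int.le_of_dvd hapos h1) (not_le.2 halt)
  have hndb : ¬ NN p (m * l) ∣ b := by
    intro h1
    apply hnda
    refine hcop.dvd_of_dvd_mul_left ?_
    have h2 := dvd_add hdab (h1.mul_left ((p : ℤ) ^ x))
    rwa [sub_add_cancel] at h2
  have hRm : D * R ≤ m := by omega
  have hWa := W_lists hp m D R hm1 (fun c => (it j P K).map (fc c)) c3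
    (fun c => by rw [List.length_map, hR]) hRm (fun _ => false) (fun c => (c1 _).symm)
    (by rw [← hQ, ← haa]; exact hnda)
  have hWb := W_lists hp m D R hm1 (fun c => (it j P K).map (fr c)) r3
    (fun c => by rw [List.length_map, hR]) hRm r (fun c => by
      rw [r1 (c - 1), sub_add_cancel])
    (by rw [← hQ, ← hbb]; exact hndb)
  rw [← hQ, ← haa] at hWa
  rw [← hQ, ← hbb] at hWb
  have hWd : W p (m * l) (d * a) = W p (m * l) b := by
    rw [W_congr hp hn hdab, W_pow_mul hp hn]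
  refine ⟨a, hnda, ?_⟩
  rw [hWd]
  -- the two sums
  have e1 : ∑ c : ZMod l, (OM p D ((it j P K).map (fc c)) false +
      ((p : ℤ) - 1) * ((m : ℤ) - D * R) * bt (fn ((it j P K).map (fc c)) false)) =
      K * ∑ c, OM p D (P.map (fc c)) false := by
    rw [← c2]
    refine Finset.sum_congr rfl fun c _ => ?_
    rw [c1 c]
    simp [bt]
  have e2 : ∑ c : ZMod l, (OM p D ((it j P K).map (fr c)) (r c) +
      ((p : ℤ) - 1) * ((m : ℤ) - D * R) * bt (fn ((it j P K).map (fr c)) (r c))) =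
      K * ∑ c, OM p D (P.map (fr c)) (r c) + ((p : ℤ) - 1) * ((m : ℤ) - D * R) * κ := by
    rw [Finset.sum_add_distrib, r2, ← Finset.mul_sum, ← hκ]
    congr 2
    refine Fintype.sum_equiv (Equiv.addRight (1 : ZMod l)) _ _ fun c => ?_
    rw [r1 c]
    rfl
  rw [e1] at hWa
  rw [e2] at hWb
  have hR' : (R : ℤ) = K * P.length := by
    rw [hR, length_it]
    push_cast
    rfl
  have key : ((p : ℤ) - 1) * (κ * m) ≤
      (K * ∑ c, OM p D (P.map (fr c)) (r c) + ((p : ℤ) - 1) * ((m : ℤ) - D * R) * κ) -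
        K * ∑ c, OM p D (P.map (fc c)) false := by
    have h1 := mul_le_mul_of_nonneg_left hE (Int.natCast_nonneg K)
    rw [hR']
    nlinarith
  have hp1 : (0 : ℝ) < (p : ℝ) - 1 := by
    have : (2 : ℝ) ≤ p := by exact_mod_cast hp
    linarith
  have key' : ((p : ℝ) - 1) * ((κ : ℝ) * m) ≤
      ((p : ℝ) - 1) * (W p (m * l) b - W p (m * l) a) := by
    rw [mul_sub, hWa, hWb]
    exact_mod_cast key
  exact le_of_mul_le_mul_left key' hp1

end Pool.Agent.Helper18.FE
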