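import Pool.Agent.Helper18.FE.B1
import Mathlib.NumberTheory.Padics.PadicVal.Basic

/-!
MP_0aa406_nt, project FE (plan of helper50): complementary windows and the influence of the borrow.
-/

set_option autoImplicit false

namespace Pool.Agent.Helper18.FE

open Finset

/-- influence of the borrow -/
def th (p D : ℕ) (x : ℤ) : ℤ := om p D x false - om p D x true

theorem ds_compl {p : ℕ} (hp : 2 ≤ p) : ∀ (D : ℕ) (y : ℤ), 0 ≤ y → y < (p : ℤ) ^ D →
    ds p y + ds p ((p : ℤ) ^ D - 1 - y) = ((p : ℤ) - 1) * D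
  | 0, y, h0, h1 => by
    have : y = 0 := by rw [pow_zero] at h1; omega
    subst this
    simp [ds_zero]
  | D + 1, y, h0, h1 => by
    have hp0 : (0 : ℤ) < p := by exact_mod_cast (by omega : 0 < p)
    have hr0 := Int.emod_nonneg y hp0.ne'
    have hr1 := Int.emod_lt_of_pos y hp0
    have hq0 : 0 ≤ y / p := Int.ediv_nonneg h0 hp0.le
    have hq1 : y / p < (p : ℤ) ^ D := by
      apply Int.ediv_lt_of_lt_mul hp0
      rwa [pow_succ] at h1
    have e1 : y = y % p + (p : ℤ) ^ 1 * (y / p) := by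
      rw [pow_one]; exact (Int.emod_add_mul_ediv y p).symm
    have e2 : (p : ℤ) ^ (D + 1) - 1 - y =
        ((p : ℤ) - 1 - y % p) + (p : ℤ) ^ 1 * ((p : ℤ) ^ D - 1 - y / p) := by
      rw [pow_succ]
      linear_combination (-1 : ℤ) * e1
    have ih := ds_compl hp D (y / p) hq0 hq1
    have hd1 : ∀ u : ℤ, 0 ≤ u → u < p → ds p u = u := by
      intro u hu0 hu1
      obtain ⟨v, rfl⟩ := Int.eq_ofNat_of_zero_le hu0
      exact ds_digit (by exact_mod_cast hu1)
    rw [e2, ds_add hp 1 (by linarith) (by rw [pow_one]; linarith) (by linarith)]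
    have e3 : ds p y = ds p (y % p + (p : ℤ) ^ 1 * (y / p)) := congrArg (ds p) e1
    rw [e3, ds_add hp 1 hr0 (by rw [pow_one]; exact hr1) hq0, hd1 _ hr0 hr1,
      hd1 ((p : ℤ) - 1 - y % p) (by linarith) (by linarith)]
    push_cast
    linear_combination ih

theorem om_add {p : ℕ} (hp : 2 ≤ p) (D : ℕ) (x : ℤ) (e : Bool) :
    om p D x e + om p D (-x) (!e) = ((p : ℤ) - 1) * D := by
  have hP : (0 : ℤ) < (p : ℤ) ^ D := by positivity
  unfold om
  have h1 := Int.emod_nonneg (x - bt e) hP.ne'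
  have h2 := Int.emod_lt_of_pos (x - bt e) hP
  have h3 : (-x - bt (!e)) % (p : ℤ) ^ D = (p : ℤ) ^ D - 1 - (x - bt e) % (p : ℤ) ^ D := by
    have h4 : -x - bt (!e) = ((p : ℤ) ^ D - 1 - (x - bt e) % (p : ℤ) ^ D) +
        (p : ℤ) ^ D * (-((x - bt e) / (p : ℤ) ^ D) - 1) := by
      have h5 := Int.emod_add_mul_ediv (x - bt e) ((p : ℤ) ^ D)
      have h6 : bt (!e) = 1 - bt e := by cases e <;> rfl
      rw [h6]
      linear_combination h5
    rw [h4, Int.add_mul_emod_self_left, Int.emod_eq_of_lt (by linarith) (by linarith)]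
  rw [h3]
  exact ds_compl hp D _ h1 h2

/-- a window and its opposite, with states `e`, `e'` -/
theorem om_pair {p : ℕ} (hp : 2 ≤ p) (D : ℕ) (x : ℤ) (e e' : Bool) :
    om p D x e + om p D (-x) e' = ((p : ℤ) - 1) * D + (1 - bt e - bt e') * th p D x := by
  have h0 := om_add hp D x false
  have h1 := om_add hp D x true
  simp only [Bool.not_false, Bool.not_true] at h0 h1
  unfold th
  cases e <;> cases e' <;> simp only [bt, Bool.false_eq_true, if_true, if_false] <;> linarith

theorem th_neg {p : ℕ} (hp : 2 ≤ p) (D : ℕ) (x : ℤ) : th p D (-x) = th p D x := by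
  have h0 := om_add hp D x false
  have h1 := om_add hp D x true
  simp only [Bool.not_false, Bool.not_true] at h0 h1
  unfold th
  linarith

theorem th_zero {p : ℕ} (hp : 2 ≤ p) (D : ℕ) : th p D 0 = -(((p : ℤ) - 1) * D) := by
  have hP : (0 : ℤ) < (p : ℤ) ^ D := by positivity
  unfold th om
  have h1 : (0 - bt false) % (p : ℤ) ^ D = 0 := by simp [bt]
  have h2 : (0 - bt true) % (p : ℤ) ^ D = (p : ℤ) ^ D - 1 := by
    rw [← Int.add_emod_right]
    unfold bt
    rw [if_pos rfl, Int.emod_eq_of_lt (by linarith) (by linarith)]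
    ring
  rw [h1, h2, ds_zero, ds_full hp]
  ring

theorem ds_pred {p : ℕ} [hp : Fact p.Prime] (y : ℕ) (hy : 0 < y) :
    ds p (y : ℤ) - ds p ((y : ℤ) - 1) = 1 - ((p : ℤ) - 1) * padicValNat p y := by
  obtain ⟨z, rfl⟩ : ∃ z, y = z + 1 := ⟨y - 1, by omega⟩
  have h1 := sub_one_mul_padicValNat_factorial (p := p) (z + 1)
  have h2 := sub_one_mul_padicValNat_factorial (p := p) z
  have h3 : padicValNat p (z + 1).factorial = padicValNat p (z + 1) + padicValNat p z.factorial := by
    rw [Nat.factorial_succ, padicValNat.mul (by omega) (Nat.factorial_ne_zero z)]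
  have h4 := Nat.digit_sum_le p (z + 1)
  have h5 := Nat.digit_sum_le p z
  have hp1 : 1 ≤ p := hp.out.one_le
  rw [h3] at h1
  unfold ds
  have h6 : (((z + 1 : ℕ) : ℤ) - 1).toNat = z := by push_cast; simp
  rw [h6, Int.toNat_natCast]
  zify [hp1, h4, h5] at h1 h2
  push_cast at h1 h2 ⊢
  linarith

/-- `th x = 1 - (p - 1) v_p(x)` for small `x ≠ 0` -/
theorem th_eq {p : ℕ} [hp : Fact p.Prime] (D : ℕ) {x : ℤ} (hx : x ≠ 0) (hx' : |x| < (p : ℤ) ^ D) :
    th p D x = 1 - ((p : ℤ) - 1) * padicValInt p x := by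
  have hp2 : 2 ≤ p := hp.out.two_le
  wlog h : 0 < x generalizing x with H
  · have h1 := H (x := -x) (neg_ne_zero.2 hx) (by rwa [abs_neg]) (by omega)
    rw [th_neg hp2] at h1
    rw [h1]
    unfold padicValInt
    rw [Int.natAbs_neg]
  · obtain ⟨y, rfl⟩ := Int.eq_ofNat_of_zero_le h.le
    have hy : 0 < y := by exact_mod_cast h
    rw [abs_of_pos h] at hx'
    have h1 : th p D (y : ℤ) = ds p (y : ℤ) - ds p ((y : ℤ) - 1) := by
      unfold th om
      have e1 : ((y : ℤ) - bt false) % (p : ℤ) ^ D = y := by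
        unfold bt
        simp only [Bool.false_eq_true, if_false, sub_zero]
        exact Int.emod_eq_of_lt h.le hx'
      have e2 : ((y : ℤ) - bt true) % (p : ℤ) ^ D = (y : ℤ) - 1 := by
        unfold bt
        rw [if_pos rfl]
        exact Int.emod_eq_of_lt (by omega) (by omega)
      rw [e1, e2]
    rw [h1, ds_pred y hy]
    rfl

end Pool.Agent.Helper18.FE
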