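import Pool.Agent.Helper18.FE.B2
import Pool.Agent.Helper50.FE.Defs

/-!
MP_0aa406_nt, project FE (plan of helper50): the exact weight of a sum of windows, from `W_lists`.
-/

set_option autoImplicit false

namespace Pool.Agent.Helper18.FE

open Finset Pool.Agent.Helper21.FC

/-- the weight of a number given by lists of entries, some block ending without borrow -/
theorem W_lists' {p : ℕ} (hp : 2 ≤ p) {l : ℕ} [NeZero l] (m D R : ℕ)
    (L : ZMod l → List ℤ) (hL : ∀ c, Sm p D (L c)) (hlen : ∀ c, (L c).length = R) (hR : D * R < m)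
    (s : ZMod l → Bool) (hs : ∀ c, s c = fn (L (c - 1)) (s (c - 1)))
    (hpos : ∃ c, fn (L c) (s c) = false) :
    ((p : ℝ) - 1) * W p (m * l) (eq ((p : ℤ) ^ m) (fun c => vl p D (L c))) =
      ((∑ c : ZMod l, (OM p D (L c) (s c) +
        ((p : ℤ) - 1) * ((m : ℤ) - D * R) * bt (fn (L c) (s c))) : ℤ) : ℝ) := by
  have hl : 0 < l := NeZero.pos l
  have hm : 1 ≤ m := by omega
  have hn : 1 ≤ m * l := Nat.mul_pos hm hl
  obtain ⟨Q, hQ⟩ : ∃ Q : ℤ, Q = (p : ℤ) ^ m := ⟨_, rfl⟩
  have hQ0 : 0 < Q := by rw [hQ]; positivity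
  -- block residues
  obtain ⟨y, hy⟩ : ∃ y : ZMod l → ℤ, ∀ c, y c = (vl p D (L c) - bt (s c)) % Q := ⟨_, fun _ => rfl⟩
  have hy0 : ∀ c, 0 ≤ y c := fun c => by rw [hy]; exact Int.emod_nonneg _ hQ0.ne'
  have hy1 : ∀ c, y c < Q := fun c => by rw [hy]; exact Int.emod_lt_of_pos _ hQ0
  have hvl : ∀ c, |vl p D (L c)| < (p : ℤ) ^ (D * R) := by
    intro c
    have h1 := vl_bound hp (L c) (hL c)
    rwa [hlen c] at h1
  have hPQ : 2 * (p : ℤ) ^ (D * R) ≤ Q := by
    have h1 : (p : ℤ) ^ (D * R + 1) ≤ Q := by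
      rw [hQ]
      exact pow_le_pow_right₀ (by exact_mod_cast (by omega : 1 ≤ p)) hR
    have h2 : (2 : ℤ) ≤ p := by exact_mod_cast hp
    have h3 : (0 : ℤ) < (p : ℤ) ^ (D * R) := by positivity
    rw [pow_succ] at h1
    nlinarith
  have hP0 : (0 : ℤ) < (p : ℤ) ^ (D * R) := by positivity
  have hsplit : ∀ c, vl p D (L c) = y c + bt (s c) - Q * bt (fn (L c) (s c)) := by
    intro c
    have h3 := split_one (lt_of_lt_of_le (hvl c) (by linarith : (p : ℤ) ^ (D * R) ≤ Q)) (s c)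
    have h4 : nx (vl p D (L c)) (s c) = fn (L c) (s c) := (fn_eq hp (L c) (hL c) (s c)).symm
    rw [h4, ← hy] at h3
    linarith
  have hdsy : ∀ c, ds p (y c) = OM p D (L c) (s c) +
      ((p : ℤ) - 1) * ((m : ℤ) - D * R) * bt (fn (L c) (s c)) := by
    intro c
    have h1 := ds_list hp (L c) (hL c) (s c) m (by rw [hlen c]; exact hR.le)
    rw [hlen c, ← hQ, ← hy] at h1
    exact h1
  -- congruence
  have hpow : (p : ℤ) ^ (m * l) = Q ^ l := by rw [hQ, pow_mul]
  have hNN : NN p (m * l) = Q ^ l - 1 := by unfold NN; rw [hpow]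
  have hcong : NN p (m * l) ∣ eq Q (fun c => vl p D (L c)) - eq Q y := by
    have h1 := eq_shift Q (fun c => bt (fn (L c) (s c)))
    have h2 : (fun c => bt (fn (L (c - 1)) (s (c - 1)))) = fun c => bt (s c) :=
      funext fun c => by rw [← hs c]
    rw [h2] at h1
    rw [hNN]
    have h3 : eq Q (fun c => vl p D (L c)) - eq Q y =
        -(Q * eq Q (fun c => bt (fn (L c) (s c))) - eq Q (fun c => bt (s c))) := by
      unfold eq
      rw [Finset.mul_sum, ← Finset.sum_sub_distrib, ← Finset.sum_sub_distrib,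
        ← Finset.sum_neg_distrib]
      refine Finset.sum_congr rfl fun c _ => ?_
      beta_reduce
      rw [hsplit c]
      ring
    rw [h3]
    exact (dvd_neg).2 h1
  -- the representative
  have hsum : eq Q y = ∑ i ∈ range l, y ((i : ℕ) : ZMod l) * ((p : ℤ) ^ m) ^ i := by
    unfold eq
    rw [hQ]
    exact sum_val y (fun i => ((p : ℤ) ^ m) ^ i)
  obtain ⟨b1, b2, b3⟩ := ds_blocks hp m (fun i => y ((i : ℕ) : ZMod l)) (fun i => hy0 _)
    (fun i => by rw [← hQ]; exact hy1 _) l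
  rw [← hsum] at b1 b2 b3
  rw [← hQ] at b2 ⊢
  have b4 : eq Q y < Q ^ l - 1 := by
    obtain ⟨c0, hc0⟩ := hpos
    have h1 : y c0 < Q - 1 := by
      have h2 := hsplit c0
      rw [hc0] at h2
      have h3 : bt false = 0 := rfl
      rw [h3, mul_zero, sub_zero] at h2
      have h4 := lt_of_le_of_lt (le_abs_self _) (hvl c0)
      have h5 := bt_nonneg (s c0)
      linarith
    have h2 : ∑ c : ZMod l, (Q - 1) * Q ^ c.val = Q ^ l - 1 := by
      rw [← Finset.mul_sum, Helper18.Katz.sum_zmod_val (fun i => Q ^ i), mul_comm]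
      exact geom_sum_mul Q l
    rw [← h2]
    unfold eq
    refine Finset.sum_lt_sum (fun c _ => mul_le_mul_of_nonneg_right (by have := hy1 c; omega)
      (by positivity)) ⟨c0, Finset.mem_univ _, mul_lt_mul_of_pos_right h1 (by positivity)⟩
  obtain ⟨Y, hY⟩ := Int.eq_ofNat_of_zero_le b1
  have hYlt : Y < p ^ (m * l) - 1 := by
    have h1 : (Y : ℤ) < Q ^ l - 1 := by
      rw [← hY]
      exact b4
    rw [← hpow] at h1
    have h2 : 1 ≤ p ^ (m * l) := Nat.one_le_pow _ _ (by omega)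
    zify [h2]
    exact h1
  have hW := W_digits hp hn Y hYlt
  rw [W_congr hp hn hcong, hY, ← hW]
  have h5 : ∑ c : ZMod l, ds p (y c) = ∑ i ∈ range l, ds p (y ((i : ℕ) : ZMod l)) := by
    have := sum_val (l := l) (fun c => ds p (y c)) (fun _ => 1)
    simpa using this
  rw [← Finset.sum_congr rfl fun c _ => hdsy c, h5, ← b3, hY]
  unfold ds
  rw [Int.toNat_natCast]
  exact (Int.cast_natCast _).symm

open Pool.Agent.Helper50.FE in
/-- translation of the signs -/
theorem nx_sx (x s : ℤ) (hs : s = 1 ∨ s = -1) :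
    nx x (decide (s < 0)) = decide (sx x s < 0) := by
  unfold nx sx
  rcases hs with rfl | rfl
  · have h0 : bt (decide ((1 : ℤ) < 0)) = 0 := by simp [bt]
    rw [h0, sub_zero]
    by_cases hx : x = 0
    · simp [hx]
    · rw [if_neg hx]
      by_cases h : x < 0
      · simp [h, Int.sign_eq_neg_one_of_neg h]
      · have : 0 < x := by omega
        simp [h, Int.sign_eq_one_of_pos this]
  · have h0 : bt (decide ((-1 : ℤ) < 0)) = 1 := by simp [bt]
    rw [h0]
    by_cases hx : x = 0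
    · simp [hx]
    · rw [if_neg hx]
      by_cases h : x < 0
      · have h1 : x - 1 < 0 := by omega
        simp [h1, Int.sign_eq_neg_one_of_neg h]
      · have h2 : 0 < x := by omega
        have h1 : ¬ x - 1 < 0 := by omega
        simp [h1, Int.sign_eq_one_of_pos h2]

open Pool.Agent.Helper50.FE in
theorem bt_bo (s : ℤ) : bt (decide (s < 0)) = bo s := by
  unfold bt bo
  by_cases h : s < 0 <;> simp [h]

open Pool.Agent.Helper50.FE in
theorem sx_pm (x s : ℤ) (hs : s = 1 ∨ s = -1) : sx x s = 1 ∨ sx x s = -1 := by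
  unfold sx
  split
  · exact hs
  · rename_i h
    rcases lt_or_gt_of_ne h with h | h
    · right; exact Int.sign_eq_neg_one_of_neg h
    · left; exact Int.sign_eq_one_of_pos h

/-- the list of the entries `x a, ..., x (a + n - 1)` -/
def lst (x : ℕ → ℤ) : ℕ → ℕ → List ℤ
  | _, 0 => []
  | a, n + 1 => x a :: lst x (a + 1) n

theorem lst_length (x : ℕ → ℤ) : ∀ n a, (lst x a n).length = n
  | 0, _ => rfl
  | n + 1, a => by
    show (lst x (a + 1) n).length + 1 = _
    rw [lst_length x n]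

theorem lst_Sm {p D : ℕ} (x : ℕ → ℤ) : ∀ n a, (∀ g, a ≤ g → g < a + n → |x g| < (p : ℤ) ^ D) →
    Sm p D (lst x a n)
  | 0, _, _ => by intro y hy; simp [lst] at hy
  | n + 1, a, h => by
    intro y hy
    rcases List.mem_cons.1 hy with h1 | h1
    · rw [h1]; exact h a le_rfl (by omega)
    · exact lst_Sm x n (a + 1) (fun g h2 h3 => h g (by omega) (by omega)) y h1

theorem lst_vl (p D : ℕ) (x : ℕ → ℤ) : ∀ n a, vl p D (lst x a n) =
    ∑ g ∈ range n, (p : ℤ) ^ (g * D) * x (a + g)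
  | 0, _ => by simp [lst, vl]
  | n + 1, a => by
    show x a + (p : ℤ) ^ D * vl p D (lst x (a + 1) n) = _
    rw [lst_vl p D x n (a + 1), Finset.sum_range_succ', Finset.mul_sum, add_comm]
    simp only [Nat.zero_mul, pow_zero, one_mul, add_zero]
    congr 1
    refine Finset.sum_congr rfl fun g _ => ?_
    rw [← mul_assoc, ← pow_add]
    congr 2
    · ring
    · omega

open Pool.Agent.Helper50.FE in
theorem lst_fn {x s : ℕ → ℤ} : ∀ n a, (s a = 1 ∨ s a = -1) →
    (∀ g, a ≤ g → g < a + n → s (g + 1) = sx (x g) (s g)) →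
    fn (lst x a n) (decide (s a < 0)) = decide (s (a + n) < 0)
  | 0, _, _, _ => rfl
  | n + 1, a, h0, h => by
    show fn (lst x (a + 1) n) (nx (x a) (decide (s a < 0))) = _
    have h1 := h a le_rfl (by omega)
    rw [nx_sx _ _ h0, ← h1, lst_fn n (a + 1) (by rw [h1]; exact sx_pm _ _ h0)
      (fun g h2 h3 => h g (by omega) (by omega))]
    rw [show a + 1 + n = a + (n + 1) by omega]

open Pool.Agent.Helper50.FE in
theorem lst_OM {p D : ℕ} (hp : 2 ≤ p) {x s : ℕ → ℤ} : ∀ n a, (s a = 1 ∨ s a = -1) →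
    (∀ g, a ≤ g → g < a + n → s (g + 1) = sx (x g) (s g)) →
    ((OM p D (lst x a n) (decide (s a < 0)) : ℤ) : ℝ) =
      ((p : ℝ) - 1) * ∑ g ∈ range n, Helper50.FE.om p D (x (a + g)) (s (a + g))
  | 0, _, _, _ => by simp [lst, OM]
  | n + 1, a, h0, h => by
    have h1 := h a le_rfl (by omega)
    have hp1 : (0 : ℝ) < (p : ℝ) - 1 := by
      have : (2 : ℝ) ≤ p := by exact_mod_cast hp
      linarith
    show ((FE.om p D (x a) (decide (s a < 0)) +
      OM p D (lst x (a + 1) n) (nx (x a) (decide (s a < 0))) : ℤ) : ℝ) = _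
    rw [nx_sx _ _ h0, ← h1, Int.cast_add, lst_OM hp n (a + 1) (by rw [h1]; exact sx_pm _ _ h0)
      (fun g h2 h3 => h g (by omega) (by omega)), Finset.sum_range_succ', add_zero, mul_add,
      add_comm]
    congr 1
    · congr 1
      exact Finset.sum_congr rfl fun g _ => by rw [show a + 1 + g = a + (g + 1) by omega]
    · unfold FE.om Helper50.FE.om dw ds
      rw [bt_bo, mul_div_cancel₀ _ hp1.ne']
      exact Int.cast_natCast _

end Pool.Agent.Helper18.FE

namespace Pool.Agent.Helper18.FEX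

open Finset Pool.Agent.Helper21.FC Pool.Agent.Helper50.FE

theorem W_windows {p l M D R : ℕ} [NeZero l] (hp : 2 ≤ p) (hM : R * D < M) (x s : ℕ → ZMod l → ℤ)
    (hx : ∀ g < R, ∀ c, |x g c| < (p : ℤ) ^ D)
    (hs : ∀ g < R, ∀ c, s (g + 1) c = sx (x g c) (s g c))
    (h0 : ∀ c, s 0 c = 1 ∨ s 0 c = -1) (hcl : ∀ c, s R c = s 0 (c + 1))
    (hpos : ∃ c, s 0 c = 1) :
    W p (l * M) (∑ g ∈ range R, (p : ℤ) ^ (g * D) * ∑ c : ZMod l, x g c * ((p : ℤ) ^ M) ^ c.val) =
      ∑ g ∈ range R, ∑ c, om p D (x g c) (s g c) +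
        ((M : ℝ) - R * D) * ((∑ c, bo (s 0 c) : ℤ) : ℝ) := by
  have hp1 : (0 : ℝ) < (p : ℝ) - 1 := by
    have : (2 : ℝ) ≤ p := by exact_mod_cast hp
    linarith
  have hfn : ∀ c, FE.fn (FE.lst (fun g => x g c) 0 R) (decide (s 0 c < 0)) =
      decide (s 0 (c + 1) < 0) := by
    intro c
    have h1 := FE.lst_fn (x := fun g => x g c) (s := fun g => s g c) R 0 (h0 c)
      (fun g _ h2 => hs g (by omega) c)
    beta_reduce at h1
    rw [h1, zero_add, hcl]
  have h1 := FE.W_lists' hp M D R (fun c => FE.lst (fun g => x g c) 0 R)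
    (fun c => FE.lst_Sm _ R 0 fun g _ h2 => hx g (by omega) c)
    (fun c => FE.lst_length _ R 0) (by rwa [mul_comm]) (fun c => decide (s 0 c < 0))
    (fun c => by
      rw [hfn, sub_add_cancel])
    (by
      obtain ⟨c, hc⟩ := hpos
      refine ⟨c - 1, ?_⟩
      rw [hfn, sub_add_cancel, hc]
      simp)
  have h2 : FE.eq ((p : ℤ) ^ M) (fun c => FE.vl p D (FE.lst (fun g => x g c) 0 R)) =
      ∑ g ∈ range R, (p : ℤ) ^ (g * D) * ∑ c : ZMod l, x g c * ((p : ℤ) ^ M) ^ c.val := by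
    unfold FE.eq
    simp only [FE.lst_vl, zero_add, Finset.sum_mul, Finset.mul_sum]
    rw [Finset.sum_comm]
    exact Finset.sum_congr rfl fun g _ => Finset.sum_congr rfl fun c _ => by ring
  rw [h2, mul_comm M l] at h1
  have h3 : ((∑ c : ZMod l, (FE.OM p D (FE.lst (fun g => x g c) 0 R) (decide (s 0 c < 0)) +
      ((p : ℤ) - 1) * ((M : ℤ) - D * R) *
        FE.bt (FE.fn (FE.lst (fun g => x g c) 0 R) (decide (s 0 c < 0)))) : ℤ) : ℝ) =
      ((p : ℝ) - 1) * (∑ g ∈ range R, ∑ c, om p D (x g c) (s g c) +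
        ((M : ℝ) - R * D) * ((∑ c, bo (s 0 c) : ℤ) : ℝ)) := by
    rw [Finset.sum_add_distrib, Int.cast_add, Int.cast_sum]
    have e1 : ∀ c : ZMod l, ((FE.OM p D (FE.lst (fun g => x g c) 0 R) (decide (s 0 c < 0)) : ℤ) : ℝ)
        = ((p : ℝ) - 1) * ∑ g ∈ range R, om p D (x g c) (s g c) := by
      intro c
      have h4 := FE.lst_OM (D := D) hp (x := fun g => x g c) (s := fun g => s g c) R 0 (h0 c)
        (fun g _ h2 => hs g (by omega) c)
      simpa only [zero_add] using h4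
    rw [Finset.sum_congr rfl fun c _ => e1 c, ← Finset.mul_sum, Finset.sum_comm, mul_add]
    congr 1
    rw [← Finset.mul_sum]
    have e2 : ∑ c : ZMod l, FE.bt (FE.fn (FE.lst (fun g => x g c) 0 R) (decide (s 0 c < 0))) =
        ∑ c, bo (s 0 c) := by
      rw [Finset.sum_congr rfl fun c _ => by rw [hfn, FE.bt_bo]]
      exact Fintype.sum_equiv (Equiv.addRight (1 : ZMod l)) _ _ fun c => rfl
    rw [e2]
    push_cast
    ring
  rw [h3] at h1
  exact mul_left_cancel₀ hp1.ne' h1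

end Pool.Agent.Helper18.FEX
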